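import Pool.Agent.Y29.UT.Main

namespace Pool.Agent.Y29.UT

open Pool.Agent.Y29.UQ

set_option linter.unusedSectionVars false
set_option linter.unusedVariables false

variable {m : ℕ} {Q Q' : Set ℕ}

/-- The values of the operator `D`, without the factor `De`. -/
inductive Del (Q : Set ℕ) (m : ℕ) : P (S Q m) → Prop
  | bt : Del Q m bt
  | y (i : Fin m) (s : P (S Q m)) (h : Del Q m s) : Del Q m (T (Sum.inr i) s)
  | x (b : ZMod 2) (s : P (S Q m)) (h : Del Q m s) : Del Q m (T (Sum.inl 0) (A (cb b) s))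

lemma cb_zero : cb 0 = 1 := E.ext' fun v n => by simp [cb]
lemma cb_mul (b c : ZMod 2) : cb b * cb c = cb (b + c) := E.ext' fun v n => by
  simp only [cb, E.mul_a]; split_ifs <;> simp

lemma sx_ph_gx (b : ZMod 2) : sx (ph (gx b)) = cb b := E.ext' fun v n => by
  simp only [sx, ph, pull, gx, cb]
  by_cases h0 : v = 0
  · subst h0
    by_cases hn : n = 0 <;> simp [hn]
  · by_cases h1 : v = -1
    · subst h1; simp
    · have h2 : rf v ≠ -1 := by unfold rf; omega
      simp [h0, h1, h2]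

lemma A_gx (b : ZMod 2) (s : P (S Q m)) :
    A (ph (gx b)) (T (Sum.inl b) s) = T (Sum.inl 0) (A (cb b) s) := by
  have h1 : (S Q m).sm (ph (gx b)) ((S Q m).bp (Sum.inl b)) = (S Q m).bp (Sum.inl b) := by
    change Sum.inl ((0 : ZMod 2) + (ph (gx b)).a (-1) 0) = Sum.inl 0
    simp [ph, pull]
  have h2 : (S Q m).sec (ph (gx b)) ((S Q m).bp (Sum.inl b)) = sx (ph (gx b)) := rfl
  rw [A_T h1, h2, sx_ph_gx]
  exact T_congr rfl _

lemma D_x (b : ZMod 2) (r s : P (S Q m)) (h : D r = sh 1 s) :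
    D (lt (Sum.inl b) r) = sh 1 (T (Sum.inl 0) (A (cb b) s)) := by
  rw [D_lt, h, lt_sh]
  exact congrArg (sh 1) (A_gx b s)

lemma D_y (i : Fin m) (r s : P (S Q m)) (h : D r = sh 1 s) :
    D (lt (Sum.inr i) r) = sh 1 (T (Sum.inr i) s) := by
  rw [D_lt, h, lt_sh]
  change sh 1 (A (ph 1) (T (Sum.inr i) s)) = _
  rw [ph_one, A_one]

lemma Del_of_D (r : P (S Q m)) : ∃ s, D r = sh 1 s ∧ Del Q m s := by
  have : Nonempty (Y m) := ⟨Sum.inl 0⟩
  refine ind (C := fun r => ∃ s, D r = sh 1 s ∧ Del Q m s) ⟨bt, rfl, Del.bt⟩ ?_ r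
  rintro y l ⟨s, h1, h2⟩
  rcases y with b | i
  · exact ⟨_, D_x b l s h1, Del.x b s h2⟩
  · exact ⟨_, D_y i l s h1, Del.y i s h2⟩

lemma D_of_Del {s : P (S Q m)} (h : Del Q m s) : ∃ r, D r = sh 1 s := by
  induction h with
  | bt => exact ⟨bt, rfl⟩
  | y i s _ ih =>
    obtain ⟨r, hr⟩ := ih
    exact ⟨_, D_y i r s hr⟩
  | x b s _ ih =>
    obtain ⟨r, hr⟩ := ih
    exact ⟨_, D_x b r s hr⟩

/-- The elements of rank `r` of `D (U x)` outside `D (U x')`. -/
def Dif {G Y : Type} [Group G] (S : SS G Y) (x x' : Y) (r : ℕ) : Set (P S) :=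
  {p | rk p = r ∧ (∃ p1, at' x ≤ p1 ∧ D p1 = p) ∧ ∀ p2, at' x' ≤ p2 → D p2 ≠ p}

/-- The elements which are moved out of the set of values. -/
def Edif (Q : Set ℕ) (m N : ℕ) : Set (P (S Q m)) :=
  {s | rk s = N ∧ Del Q m s ∧ ¬ Del Q m (A (cb 1) s)}

lemma zmod2 {b b' : ZMod 2} (h : b ≠ b') : b' + 1 = b ∧ b' + b = 1 ∧ b' + b' = 0 := by
  revert b b'; decide

lemma Dif_eq {b b' : ZMod 2} (h : b ≠ b') (N : ℕ) :
    Dif (S Q m) (Sum.inl b) (Sum.inl b') (N + 3) =
      (fun s => sh 1 (T (Sum.inl 0) (A (cb b) s))) '' Edif Q m N := by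
  obtain ⟨e1, e2, e3⟩ := zmod2 h
  ext p
  constructor
  · rintro ⟨h1, ⟨p1, ⟨r, hr⟩, hp1⟩, h2⟩
    rw [L_at] at hr
    obtain ⟨s, hs1, hs2⟩ := Del_of_D r
    have hp : sh 1 (T (Sum.inl 0) (A (cb b) s)) = p := by
      rw [← hp1, ← hr, D_x b r s hs1]
    refine ⟨s, ⟨?_, hs2, ?_⟩, hp⟩
    · rw [← hp, rk_sh, rk_T, rk_A] at h1
      omega
    · intro hc
      obtain ⟨r', hr'⟩ := D_of_Del hc
      refine h2 (lt (Sum.inl b') r') (le_L (at' (Sum.inl b')) r') ?_
      rw [D_x b' r' _ hr', A_mul, cb_mul, e1, hp]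
  · rintro ⟨s, ⟨hs1, hs2, hs3⟩, rfl⟩
    refine ⟨?_, ?_, ?_⟩
    · change rk (sh 1 (T (Sum.inl 0) (A (cb b) s))) = N + 3
      rw [rk_sh, rk_T, rk_A, hs1]
    · obtain ⟨r, hr⟩ := D_of_Del hs2
      exact ⟨lt (Sum.inl b) r, le_L (at' (Sum.inl b)) r, D_x b r s hr⟩
    · rintro p2 ⟨r', hr'⟩ he
      rw [L_at] at hr'
      obtain ⟨s', hs1', hs2'⟩ := Del_of_D r'
      rw [← hr', D_x b' r' s' hs1'] at he
      have h3 := T_injective _ (sh_injective 1 he)
      have h4 := congrArg (A (cb b')) h3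
      rw [A_mul, A_mul, cb_mul, cb_mul, e3, e2, cb_zero, A_one] at h4
      rw [h4] at hs2'
      exact hs3 hs2'

lemma F_injective (b : ZMod 2) :
    Function.Injective (fun s : P (S Q m) => sh 1 (T (Sum.inl 0) (A (cb b) s))) :=
  fun _ _ h => A_injective _ (T_injective _ (sh_injective 1 h))

lemma Dif_sub {G G' Y : Type} [Group G] [Group G'] [Nontrivial Y] {S : SS G Y} {S' : SS G' Y}
    (α : P S ≃o P S') {x x' y y' : Y} (h : α (at' x) = at' y) (h' : α (at' x') = at' y') (r : ℕ) :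
    α '' Dif S x x' r ⊆ Dif S' y y' r := by
  rintro _ ⟨p, ⟨h1, ⟨p1, h2, h3⟩, h4⟩, rfl⟩
  refine ⟨by rw [rk_iso, h1], ⟨α p1, by rw [← h]; exact α.monotone h2, by rw [← iso_D, h3]⟩, ?_⟩
  intro p2 h5 h6
  refine h4 (α.symm p2) ?_ ?_
  · rw [α.le_symm_apply, h']; exact h5
  · apply α.injective
    rw [iso_D, α.apply_symm_apply, h6]

lemma Dif_image {G G' Y : Type} [Group G] [Group G'] [Nontrivial Y] {S : SS G Y} {S' : SS G' Y}
    (α : P S ≃o P S') {x x' y y' : Y} (h : α (at' x) = at' y) (h' : α (at' x') = at' y') (r : ℕ) :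
    α '' Dif S x x' r = Dif S' y y' r := by
  apply Set.Subset.antisymm (Dif_sub α h h' r)
  intro p hp
  have h1 := Dif_sub α.symm (x := y) (x' := y') (y := x) (y' := x')
    (by rw [← h, α.symm_apply_apply]) (by rw [← h', α.symm_apply_apply]) r ⟨p, hp, rfl⟩
  exact ⟨α.symm p, h1, α.apply_symm_apply p⟩

lemma D_at_val (y : Y m) : (D (at' y : P (S Q m))).val =
    [(S Q m).sm ((S Q m).phi ((S Q m).gx y)) ((S Q m).bp y)] := by
  have h1 : (at' y : P (S Q m)) = lt y bt := by rw [← L_at, L_bt]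
  have h2 : D (bt : P (S Q m)) = sh 1 bt := rfl
  rw [h1, D_lt, h2, lt_sh, T_neg (by simp [bt])]
  rfl

lemma D_at_inl (b b' : ZMod 2) : D (at' (Sum.inl b) : P (S Q m)) = D (at' (Sum.inl b')) := by
  have h : ∀ b : ZMod 2, D (at' (Sum.inl b) : P (S Q m)) = sh 1 (T (Sum.inl 0) bt) := by
    intro b
    have h1 : (at' (Sum.inl b) : P (S Q m)) = lt (Sum.inl b) bt := by rw [← L_at, L_bt]
    rw [h1, D_x b bt bt rfl]
    rfl
  rw [h, h]

instance : Nontrivial (Y m) := ⟨Sum.inl 0, Sum.inl 1, by simp⟩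

/-- An isomorphism gives equality of the numbers. -/
lemma ncard_eq (α : P (S Q m) ≃o P (S Q' m)) (N : ℕ) :
    (Edif Q m N).ncard = (Edif Q' m N).ncard := by
  obtain ⟨y, hy⟩ := exists_at (p := α (at' (Sum.inl 0))) (by rw [rk_iso, rk_at])
  obtain ⟨y', hy'⟩ := exists_at (p := α (at' (Sum.inl 1))) (by rw [rk_iso, rk_at])
  have hne : y ≠ y' := by
    rintro rfl
    have h1 := at_inj (α.injective (hy.trans hy'.symm))
    exact absurd (Sum.inl_injective h1) (by decide)
  have hD : D (at' y : P (S Q' m)) = D (at' y') := by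
    rw [← hy, ← hy', ← iso_D, ← iso_D, D_at_inl 0 1]
  have hv := congrArg P.val hD
  rw [D_at_val, D_at_val] at hv
  have hv1 := (List.cons.inj hv).1
  rcases y with b | i <;> rcases y' with b' | i'
  · have hb : b ≠ b' := fun h => hne (by rw [h])
    have h1 := Dif_image α hy hy' (N + 3)
    rw [Dif_eq (by decide), Dif_eq hb] at h1
    have h2 := congrArg Set.ncard h1
    rw [Set.ncard_image_of_injective _ α.injective, Set.ncard_image_of_injective _ (F_injective 0),
      Set.ncard_image_of_injective _ (F_injective b)] at h2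
    exact h2
  · exact absurd hv1 (by simp [S])
  · exact absurd hv1 (by simp [S])
  · exact absurd (congrArg Sum.inr (Sum.inr_injective hv1)) hne

/-! ### Comparison -/

lemma RD_cast : ∀ (l : List (Y m)), RD (S Q' m) l → RD (S Q m) l
  | [], h => h
  | x :: l, h => ⟨h.1, RD_cast l h.2⟩

/-- The same word for another set. -/
def jm (s : P (S Q' m)) : P (S Q m) := ⟨s.n, s.val, RD_cast _ s.prop⟩

lemma jm_injective : Function.Injective (jm : P (S Q' m) → P (S Q m)) := fun a b h => by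
  have h1 := congrArg P.n h
  have h2 := congrArg P.val h
  exact P.ext h1 h2

lemma jm_T (y : Y m) (s : P (S Q' m)) : (jm (T y s) : P (S Q m)) = T y (jm s) := by
  by_cases h : s.val.head? = some ((S Q' m).bp y)
  · rw [T_pos h, T_pos (s := (jm s : P (S Q m))) h]
    rfl
  · rw [T_neg h, T_neg (s := (jm s : P (S Q m))) h]
    rfl

lemma it_supp (b : ZMod 2) (i : ℕ) : ∀ v n, (ph^[i] (cb b)).a v n ≠ 0 → v = 0 := by
  induction i with
  | zero =>
    intro v n h
    by_contra hv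
    exact h (by simp [cb, hv])
  | succ i ih =>
    intro v n h
    rw [Function.iterate_succ_apply'] at h
    simp only [ph, pull] at h
    split_ifs at h
    · exact ih _ _ h
    · exact absurd rfl h

lemma it_rel (N : ℕ) (b : ZMod 2) (i : ℕ) : RelD N 0 0 (ph^[i] (cb b)) (ph^[i] (cb b)) := by
  refine ⟨fun v n h => absurd rfl h, fun _ v n h => ?_⟩
  have hv := it_supp b i v n (by tauto)
  subst hv
  unfold rho; simp

lemma jm_A {N : ℕ} (hQ : ∀ j, j < N → (j ∈ Q ↔ j ∈ Q')) (b : ZMod 2) (s : P (S Q' m))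
    (hs : s.val.length ≤ 2 * N + 1) : A (cb b) (jm s : P (S Q m)) = jm (A (cb b) s) := by
  refine P.ext rfl ?_
  exact ta_congr (Nat.zero_le 1) hQ s.val 0 _ _ (it_rel N b s.n) (by omega)

lemma len_le (s : P (S Q m)) : s.val.length ≤ rk s := by unfold rk; omega

lemma Del_jm {N : ℕ} (hQ : ∀ j, j < N → (j ∈ Q ↔ j ∈ Q')) {s : P (S Q' m)} (h : Del Q' m s) :
    rk s ≤ 2 * N + 2 → Del Q m (jm s) := by
  induction h with
  | bt => intro _; exact Del.bt
  | y i s _ ih =>
    intro hs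
    rw [rk_T] at hs
    rw [jm_T]
    exact Del.y i _ (ih (by omega))
  | x b s _ ih =>
    intro hs
    rw [rk_T, rk_A] at hs
    have h1 := len_le s
    rw [jm_T, ← jm_A hQ b s (by omega)]
    exact Del.x b _ (ih (by omega))

/-- The word with last letter `β`. -/
def om (N : ℕ) (β : ZMod 2) : List (Y (m + 3)) := run N 0 ++ (pat N ++ [Sum.inl β])

lemma jm_A' {N : ℕ} (hQ : ∀ j, j < N → (j ∈ Q ↔ j ∈ Q')) (s : P (S Q' (m + 3)))
    (hs : rk s = 2 * N + 2) : A (cb 1) (jm s : P (S Q (m + 3))) = jm (A (cb 1) s) ∨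
      (s.n = 0 ∧ ∃ β, s.val = om N β) := by
  rcases Nat.eq_zero_or_pos s.n with h0 | h0
  · have hl : s.val.length = N + 2 + N := by unfold rk at hs; omega
    rcases phase1 hQ N 0 (by omega) s.val (cb 1) (cb 1) (cb_rel N 1) hl with h1 | ⟨β, h1⟩
    · left
      refine P.ext rfl ?_
      change ta (S Q (m + 3)) (ph^[s.n] (cb 1)) s.val = ta (S Q' (m + 3)) (ph^[s.n] (cb 1)) s.val
      rw [h0]
      exact h1
    · right
      exact ⟨h0, β, h1⟩
  · left
    apply jm_A hQ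
    unfold rk at hs
    omega

lemma ltr_cases (v : ℤ) : (ltr v : Y (m + 3)) = Sum.inr 0 ∨ (ltr v : Y (m + 3)) = Sum.inr 1 := by
  unfold ltr; split_ifs <;> simp

lemma RD_run (l : List (Y (m + 3))) (h : RD (S Q (m + 3)) l) (h0 : l.head? ≠ some (Sum.inr 0))
    (h1 : l.head? ≠ some (Sum.inr 1)) (j : ℕ) : ∀ v, RD (S Q (m + 3)) (run j v ++ l) := by
  induction j with
  | zero => intro v; exact h
  | succ j ih =>
    intro v
    refine ⟨?_, ih (v + 1)⟩
    have hb : (S Q (m + 3)).bp (ltr v) = ltr v := by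
      rcases ltr_cases (m := m) v with h | h <;> rw [h] <;> rfl
    rw [hb]
    cases j with
    | zero =>
      change l.head? ≠ _
      rcases ltr_cases (m := m) v with h | h <;> rw [h] <;> assumption
    | succ j =>
      change some (ltr (v + 1)) ≠ some (ltr v)
      intro h
      have h2 := Option.some.inj h
      unfold ltr at h2
      split_ifs at h2
      · omega
      · exact absurd (Sum.inr_injective h2) (by simp)
      · exact absurd (Sum.inr_injective h2) (by simp)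
      · omega

lemma two_ne : (Sum.inr 2 : Y (m + 3)) ≠ Sum.inr 0 ∧ (Sum.inr 2 : Y (m + 3)) ≠ Sum.inr 1 := by
  have h2 : (2 : Fin (m + 3)).val = 2 := Nat.mod_eq_of_lt (show 2 < m + 3 by omega)
  have h3 : (1 : Fin (m + 3)).val = 1 := Nat.mod_eq_of_lt (show 1 < m + 3 by omega)
  have h4 : (0 : Fin (m + 3)).val = 0 := rfl
  constructor
  · intro h
    have h1 : (2 : Fin (m + 3)).val = (0 : Fin (m + 3)).val :=
      congrArg Fin.val (Sum.inr_injective h)
    rw [h2, h4] at h1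
    exact absurd h1 (by decide)
  · intro h
    have h1 : (2 : Fin (m + 3)).val = (1 : Fin (m + 3)).val :=
      congrArg Fin.val (Sum.inr_injective h)
    rw [h2, h3] at h1
    exact absurd h1 (by decide)

lemma RD_om (N : ℕ) (β : ZMod 2) : RD (S Q (m + 3)) (om N β) := by
  have h1 : RD (S Q (m + 3)) [Sum.inl β] := ⟨by simp, trivial⟩
  have h2 : RD (S Q (m + 3)) (run N (-1 - (N : ℤ)) ++ [Sum.inl β]) :=
    RD_run _ h1 (by simp) (by simp) N _
  have h3 : RD (S Q (m + 3)) (pat N ++ [Sum.inl β]) := by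
    refine ⟨?_, h2⟩
    change (run N (-1 - (N : ℤ)) ++ [Sum.inl β]).head? ≠ some (Sum.inr 2)
    cases N with
    | zero => simp [run]
    | succ N =>
      change some (ltr _) ≠ some (Sum.inr 2)
      intro h
      rcases ltr_cases (m := m) (-1 - ((N + 1 : ℕ) : ℤ)) with h' | h'
      · rw [h'] at h; exact two_ne.1 (Option.some.inj h).symm
      · rw [h'] at h; exact two_ne.2 (Option.some.inj h).symm
  refine RD_run _ h3 ?_ ?_ N 0
  · change some (Sum.inr 2) ≠ some (Sum.inr 0)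
    exact fun h => two_ne.1 (Option.some.inj h)
  · change some (Sum.inr 2) ≠ some (Sum.inr 1)
    exact fun h => two_ne.2 (Option.some.inj h)

lemma run_inr (j : ℕ) : ∀ v, ∀ y ∈ (run j v : List (Y (m + 3))), ∃ i, y = Sum.inr i := by
  induction j with
  | zero => intro v y hy; simp [run] at hy
  | succ j ih =>
    intro v y hy
    rw [run, List.mem_cons] at hy
    rcases hy with rfl | hy
    · rcases ltr_cases (m := m) v with h | h <;> exact ⟨_, h⟩
    · exact ih _ y hy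

lemma om_eq (N : ℕ) (β : ZMod 2) : ∃ l : List (Y (m + 3)), (∀ y ∈ l, ∃ i, y = Sum.inr i) ∧
    ∀ β, om N β = l ++ [Sum.inl β] := by
  refine ⟨run N 0 ++ pat N, ?_, fun β => by rw [om, List.append_assoc]⟩
  intro y hy
  rw [List.mem_append, pat, List.mem_cons] at hy
  rcases hy with hy | rfl | hy
  · exact run_inr N 0 y hy
  · exact ⟨2, rfl⟩
  · exact run_inr N _ y hy

lemma not_Del : ∀ (l : List (Y m)), (∀ y ∈ l, ∃ i, y = Sum.inr i) → ∀ s : P (S Q m), s.n = 0 →
    s.val = l ++ [Sum.inl 1] → ¬ Del Q m s := by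
  intro l
  induction l with
  | nil =>
    intro _ s hn hv hs
    cases hs with
    | bt => simp [bt] at hv
    | y i s h =>
      by_cases h1 : s.val.head? = some ((S Q m).bp (Sum.inr i))
      · rw [T_pos h1] at hn; simp at hn
      · rw [T_neg h1] at hv
        have h2 := (List.cons.inj hv).1
        exact absurd h2 (by simp [S])
    | x b s h =>
      by_cases h1 : (A (cb b) s).val.head? = some ((S Q m).bp (Sum.inl 0))
      · rw [T_pos h1] at hn; simp at hn
      · rw [T_neg h1] at hv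
        have h2 := (List.cons.inj hv).1
        exact absurd h2 (by simp [S])
  | cons z l ih =>
    intro hl s hn hv hs
    obtain ⟨k, hk⟩ := hl z (by simp)
    cases hs with
    | bt => simp [bt] at hv
    | y i s h =>
      by_cases h1 : s.val.head? = some ((S Q m).bp (Sum.inr i))
      · rw [T_pos h1] at hn; simp at hn
      · rw [T_neg h1] at hv hn
        exact ih (fun y hy => hl y (List.mem_cons_of_mem _ hy)) s hn (List.cons.inj hv).2 h
    | x b s h =>
      by_cases h1 : (A (cb b) s).val.head? = some ((S Q m).bp (Sum.inl 0))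
      · rw [T_pos h1] at hn; simp at hn
      · rw [T_neg h1] at hv
        have h2 := (List.cons.inj hv).1
        rw [hk] at h2
        exact absurd h2 (by simp [S])

lemma is_Del : ∀ (l : List (Y m)), (∀ y ∈ l, ∃ i, y = Sum.inr i) → ∀ s : P (S Q m), s.n = 0 →
    s.val = l ++ [Sum.inl 0] → Del Q m s := by
  intro l
  induction l with
  | nil =>
    intro _ s hn hv
    have h1 := Del.x (Q := Q) (m := m) 0 bt Del.bt
    rw [cb_zero, A_one, T_neg (by simp [bt])] at h1
    have h2 : s = ⟨0, [Sum.inl 0], by rw [← List.nil_append [Sum.inl 0], ← hv]; exact s.prop⟩ :=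
      P.ext hn hv
    rw [h2]
    exact h1
  | cons z l ih =>
    intro hl s hn hv
    obtain ⟨k, rfl⟩ := hl z (by simp)
    have hp : RD (S Q m) (Sum.inr k :: (l ++ [Sum.inl 0])) := by
      have := s.prop
      rw [hv] at this
      exact this
    have h1 := ih (fun y hy => hl y (List.mem_cons_of_mem _ hy)) ⟨0, l ++ [Sum.inl 0], hp.2⟩ rfl rfl
    have h2 := Del.y k _ h1
    rw [T_neg hp.1] at h2
    have h3 : s = ⟨0, Sum.inr k :: (l ++ [Sum.inl 0]), hp⟩ := P.ext hn hv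
    rw [h3]
    exact h2

/-- The special element. -/
def Om (Q : Set ℕ) (m N : ℕ) (β : ZMod 2) : P (S Q (m + 3)) := ⟨0, om N β, RD_om N β⟩

lemma rk_Om (N : ℕ) (β : ZMod 2) : rk (Om Q m N β) = 2 * N + 2 := by
  simp [rk, Om, om, pat, length_run]; omega

open Classical in
lemma A_Om (N : ℕ) (β : ZMod 2) :
    A (cb 1) (Om Q m N β) = Om Q m N (β + if N ∈ Q then 1 else 0) :=
  P.ext rfl (ta_pat Q N β)

lemma Om_mem {N : ℕ} (hN : N ∈ Q) : Om Q m N 0 ∈ Edif Q (m + 3) (2 * N + 2) := by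
  obtain ⟨l, hl1, hl2⟩ := om_eq (m := m) N 0
  refine ⟨rk_Om N 0, is_Del l hl1 _ rfl (hl2 0), ?_⟩
  rw [A_Om, if_pos hN, zero_add]
  exact not_Del l hl1 _ rfl (hl2 1)

/-- The key inequality. -/
lemma ncard_lt {N : ℕ} (hQ : ∀ j, j < N → (j ∈ Q ↔ j ∈ Q')) (hN : N ∈ Q) (hN' : N ∉ Q') :
    (Edif Q' (m + 3) (2 * N + 2)).ncard < (Edif Q (m + 3) (2 * N + 2)).ncard := by
  have hfix : ∀ s : P (S Q' (m + 3)), s.n = 0 → (∃ β, s.val = om N β) → A (cb 1) s = s := by
    rintro s h0 ⟨β, hβ⟩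
    have h1 : s = Om Q' m N β := P.ext h0 hβ
    rw [h1, A_Om, if_neg hN', add_zero]
  have hfin : (Edif Q (m + 3) (2 * N + 2)).Finite :=
    (finite_rank (2 * N + 2)).subset fun s hs => hs.1
  rw [← Set.ncard_image_of_injective (Edif Q' (m + 3) (2 * N + 2))
    (jm_injective : Function.Injective (jm : P (S Q' (m + 3)) → P (S Q (m + 3))))]
  refine Set.ncard_lt_ncard ?_ hfin
  rw [Set.ssubset_iff_exists]
  refine ⟨?_, Om Q m N 0, Om_mem hN, ?_⟩
  · rintro _ ⟨s, ⟨h1, h2, h3⟩, rfl⟩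
    refine ⟨h1, Del_jm hQ h2 (by omega), fun hc => ?_⟩
    rcases jm_A' hQ s h1 with h4 | ⟨h4, h5⟩
    · rw [h4] at hc
      have h6 := Del_jm (Q := Q') (Q' := Q) (fun j hj => (hQ j hj).symm) hc (by
        change rk (A (cb 1) s) ≤ _
        rw [rk_A]; omega)
      exact h3 h6
    · exact h3 (by rw [hfix s h4 h5]; exact h2)
  · rintro ⟨s, ⟨h1, h2, h3⟩, he⟩
    have h4 : s.n = 0 := congrArg P.n he
    have h5 : s.val = om N 0 := congrArg P.val he
    exact h3 (by rw [hfix s h4 ⟨0, h5⟩]; exact h2)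

theorem not_iso (h : Q ≠ Q') : IsEmpty (P (S Q (m + 3)) ≃o P (S Q' (m + 3))) := by
  classical
  refine ⟨fun α => ?_⟩
  have hex : ∃ N, ¬ (N ∈ Q ↔ N ∈ Q') := by
    by_contra hc
    push Not at hc
    exact h (Set.ext hc)
  have h1 := Nat.find_spec hex
  have h2 : ∀ j, j < Nat.find hex → (j ∈ Q ↔ j ∈ Q') := fun j hj => by
    have := Nat.find_min hex hj
    rwa [not_not] at this
  generalize Nat.find hex = N at h1 h2
  have h3 := ncard_eq α (2 * N + 2)
  by_cases hN : N ∈ Q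
  · have hN' : N ∉ Q' := fun h => h1 ⟨fun _ => h, fun _ => hN⟩
    have := ncard_lt (m := m) h2 hN hN'
    omega
  · have hN' : N ∈ Q' := by
      by_contra hc
      exact h1 ⟨fun h => absurd h hN, fun h => absurd h hc⟩
    have := ncard_lt (m := m) (fun j hj => (h2 j hj).symm) hN' hN
    omega

theorem no_mul (hQ : Q.Nonempty)
    (mul : P (S Q (m + 3)) → P (S Q (m + 3)) → P (S Q (m + 3)))
    (hass : ∀ a b c, mul (mul a b) c = mul a (mul b c))
    (hcan : ∀ a b c, mul a b = mul a c → b = c)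
    (hle : ∀ a b, a ≤ b ↔ ∃ c, mul a c = b) : False := by
  obtain ⟨N, hN⟩ := hQ
  have h1 := Om_mem (m := m) hN
  have h2 : sh 1 (T (Sum.inl 0) (A (cb 1) (Om Q m N 0))) ∈
      Dif (S Q (m + 3)) (Sum.inl 1) (Sum.inl 0) (2 * N + 2 + 3) := by
    rw [Dif_eq (by decide)]
    exact ⟨_, h1, rfl⟩
  obtain ⟨_, ⟨p1, h3, h4⟩, h5⟩ := h2
  exact not_mul mul hass hcan hle (D_at_inl 1 0) h3 (fun p' hp' => by rw [h4]; exact h5 p' hp')

end Pool.Agent.Y29.UT
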