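import Pool.Agent.Y29.UT.Data

/-!
Comparison of the actions for two sets which agree below `N`.
-/

namespace Pool.Agent.Y29.UT

open Pool.Agent.Y29.UQ

set_option linter.unusedSectionVars false
set_option linter.unusedVariables false

/-- Distance of a vertex from the middle. -/
def rho (v : ℤ) : ℕ := if v < 0 then (-1 - v).toNat else v.toNat

/-- Two maps which move the coefficients along `t`; they may differ far away if `z` holds. -/
structure Mv (N : ℕ) (F F' : E → E) (t : ℤ → ℤ) (z : Prop) : Prop where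
  nz : ∀ g v n, (F g).a v n ≠ 0 → ∃ n', g.a (t v) n' ≠ 0
  nz' : ∀ g v n, (F' g).a v n ≠ 0 → ∃ n', g.a (t v) n' ≠ 0
  df : ∀ g g' v n, (F g).a v n ≠ (F' g').a v n → (∃ n', g.a (t v) n' ≠ g'.a (t v) n') ∨
    (z ∧ N ≤ rho v ∧ rho (t v) = rho v ∧ ∃ n', g.a (t v) n' ≠ 0 ∨ g'.a (t v) n' ≠ 0)
  le1 : ∀ v, rho (t v) ≤ rho v + 1
  le2 : ∀ v, rho v ≤ rho (t v) + 1

/-- The basic relation. -/
def RelD (N d i : ℕ) (g g' : E) : Prop :=
  (∀ v n, g.a v n ≠ g'.a v n → 2 * N + 1 + d ≤ rho v + i) ∧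
  (i ≤ N → ∀ v n, (g.a v n ≠ 0 ∨ g'.a v n ≠ 0) → rho v + d ≤ i)

lemma Mv.step {N d i : ℕ} {F F' : E → E} {t : ℤ → ℤ} {z : Prop} (h : Mv N F F' t z)
    (hd : d ≤ 1) {g g' : E} (hr : RelD N d i g g') : RelD N d (i + 1) (F g) (F' g') := by
  refine ⟨fun v n hne => ?_, fun hi v n hnz => ?_⟩
  · rcases h.df g g' v n hne with ⟨n', h1⟩ | ⟨_, h2, h3, n', h4⟩
    · have := hr.1 _ _ h1
      have := h.le1 v
      omega
    · by_cases hi : i ≤ N
      · have := hr.2 hi _ _ h4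
        omega
      · omega
  · have h1 : ∃ n', g.a (t v) n' ≠ 0 ∨ g'.a (t v) n' ≠ 0 := by
      rcases hnz with h2 | h2
      · obtain ⟨n', h3⟩ := h.nz g v n h2
        exact ⟨n', Or.inl h3⟩
      · obtain ⟨n', h3⟩ := h.nz' g' v n h2
        exact ⟨n', Or.inr h3⟩
    obtain ⟨n', h2⟩ := h1
    have := hr.2 (by omega) _ _ h2
    have := h.le2 v
    omega

/-- Invariant of the first phase. -/
def Inv1 (N i : ℕ) (g g' : E) : Prop :=
  RelD N 0 i g g' ∧ ∀ v n, (g.a v n ≠ 0 ∨ g'.a v n ≠ 0) → rho v = i → v = (i : ℤ)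

lemma Mv.back {N : ℕ} {F F' : E → E} {t : ℤ → ℤ} {z : Prop} (h : Mv N F F' t z) {g g' : E}
    {v : ℤ} {n : ℕ} (hnz : (F g).a v n ≠ 0 ∨ (F' g').a v n ≠ 0) :
    ∃ n', g.a (t v) n' ≠ 0 ∨ g'.a (t v) n' ≠ 0 := by
  rcases hnz with h2 | h2
  · obtain ⟨n', h3⟩ := h.nz g v n h2
    exact ⟨n', Or.inl h3⟩
  · obtain ⟨n', h3⟩ := h.nz' g' v n h2
    exact ⟨n', Or.inr h3⟩

lemma nz_of_ne {g g' : E} {v : ℤ} {n : ℕ} (h : g.a v n ≠ g'.a v n) :
    g.a v n ≠ 0 ∨ g'.a v n ≠ 0 := by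
  by_contra hc
  push Not at hc
  exact h (hc.1.trans hc.2.symm)

lemma Mv.good1 {N i : ℕ} {F F' : E → E} {t : ℤ → ℤ} {z : Prop} (h : Mv N F F' t z)
    (hi : i < N) {g g' : E} (hr : Inv1 N i g g')
    (ht : ∀ v, t v = (i : ℤ) → rho v = i + 1 → v = ((i + 1 : ℕ) : ℤ)) :
    Inv1 N (i + 1) (F g) (F' g') := by
  refine ⟨h.step (by omega) hr.1, fun v n hnz hv => ?_⟩
  obtain ⟨n', h1⟩ := h.back hnz
  have h2 := hr.1.2 (by omega) _ _ h1
  have h3 := h.le2 v
  exact ht v (hr.2 _ _ h1 (by omega)) hv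

lemma Mv.bad1 {N i : ℕ} {F F' : E → E} {t : ℤ → ℤ} {z : Prop} (h : Mv N F F' t z)
    (hi : i < N) {g g' : E} (hr : Inv1 N i g g')
    (ht : ∀ v, t v = (i : ℤ) → rho v ≠ i + 1) : RelD N 1 (i + 1) (F g) (F' g') := by
  have h0 := h.step (by omega) hr.1
  refine ⟨fun v n hne => ?_, fun _ v n hnz => ?_⟩
  · have h1 := h0.1 v n hne
    have h2 := h0.2 (by omega) v n (nz_of_ne hne)
    omega
  · obtain ⟨n', h1⟩ := h.back hnz
    have h2 := hr.1.2 (by omega) _ _ h1
    have h3 := h.le2 v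
    have h4 := h0.2 (by omega) v n hnz
    by_contra hc
    exact ht v (hr.2 _ _ h1 (by omega)) (by omega)

/-- Invariant of the second phase. -/
def Inv2 (N j : ℕ) (g g' : E) : Prop :=
  RelD N 0 (2 * N + 1 - j) g g' ∧
    ∀ v n, g.a v n ≠ g'.a v n → rho v = j → v = -1 - (j : ℤ)

lemma Mv.mid {N : ℕ} {F F' : E → E} {z : Prop} (h : Mv N F F' rf z) {g g' : E}
    (hr : Inv1 N N g g') : Inv2 N N (F g) (F' g') := by
  have h0 := h.step (by omega) hr.1
  have e : 2 * N + 1 - N = N + 1 := by omega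
  refine ⟨by rw [e]; exact h0, fun v n hne hv => ?_⟩
  rcases h.df g g' v n hne with ⟨n', h1⟩ | ⟨_, h2, h3, n', h4⟩
  · have h5 := hr.1.1 _ _ h1
    have h6 := hr.1.2 le_rfl _ _ (nz_of_ne h1)
    omega
  · have h5 := hr.2 _ _ h4 (by omega)
    unfold rf at h5
    omega

lemma Mv.midbad {N : ℕ} {F F' : E → E} {t : ℤ → ℤ} (h : Mv N F F' t False) {g g' : E}
    (hr : Inv1 N N g g') : RelD N 1 (N + 1) (F g) (F' g') := by
  refine ⟨fun v n hne => ?_, fun hi => by omega⟩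
  rcases h.df g g' v n hne with ⟨n', h1⟩ | ⟨h2, _⟩
  · have h5 := hr.1.1 _ _ h1
    have h6 := hr.1.2 le_rfl _ _ (nz_of_ne h1)
    omega
  · exact h2.elim

lemma Mv.good2 {N j : ℕ} {F F' : E → E} {t : ℤ → ℤ} {z : Prop} (h : Mv N F F' t z)
    (hj : j + 1 ≤ N) {g g' : E} (hr : Inv2 N (j + 1) g g')
    (ht : ∀ v, t v = -1 - ((j + 1 : ℕ) : ℤ) → rho v = j → v = -1 - (j : ℤ)) :
    Inv2 N j (F g) (F' g') := by
  have h0 := h.step (by omega) hr.1
  have e : 2 * N + 1 - (j + 1) + 1 = 2 * N + 1 - j := by omega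
  rw [e] at h0
  refine ⟨h0, fun v n hne hv => ?_⟩
  rcases h.df g g' v n hne with ⟨n', h1⟩ | ⟨_, h2, h3, n', h4⟩
  · have h5 := hr.1.1 _ _ h1
    have h6 := h.le1 v
    exact ht v (hr.2 _ _ h1 (by omega)) hv
  · omega

lemma Mv.bad2 {N j : ℕ} {F F' : E → E} {t : ℤ → ℤ} {z : Prop} (h : Mv N F F' t z)
    (hj : j + 1 ≤ N) {g g' : E} (hr : Inv2 N (j + 1) g g')
    (ht : ∀ v, t v = -1 - ((j + 1 : ℕ) : ℤ) → rho v ≠ j) :
    RelD N 1 (2 * N + 1 - j) (F g) (F' g') := by
  have h0 := h.step (by omega) hr.1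
  have e : 2 * N + 1 - (j + 1) + 1 = 2 * N + 1 - j := by omega
  rw [e] at h0
  refine ⟨fun v n hne => ?_, fun hi => by omega⟩
  have h7 := h0.1 v n hne
  by_contra hc
  have hv : rho v = j := by omega
  rcases h.df g g' v n hne with ⟨n', h1⟩ | ⟨_, h2, h3, n', h4⟩
  · have h5 := hr.1.1 _ _ h1
    have h6 := h.le1 v
    exact ht v (hr.2 _ _ h1 (by omega)) hv
  · omega

/-! ### The moves -/

lemma rho_m0 (v : ℤ) : rho (m0 v) ≤ rho v + 1 ∧ rho v ≤ rho (m0 v) + 1 := by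
  unfold rho m0; split_ifs <;> omega
lemma rho_m1 (v : ℤ) : rho (m1 v) ≤ rho v + 1 ∧ rho v ≤ rho (m1 v) + 1 := by
  unfold rho m1; split_ifs <;> omega
lemma rho_rf (v : ℤ) : rho (rf v) = rho v := by
  unfold rho rf; split_ifs <;> omega

lemma Mv_pull (N : ℕ) (t : ℤ → ℤ) (w : ℤ → ℕ)
    (h : ∀ v, rho (t v) ≤ rho v + 1 ∧ rho v ≤ rho (t v) + 1) :
    Mv N (pull t w) (pull t w) t False where
  nz g v n hne := by
    simp only [pull] at hne
    split_ifs at hne
    · exact ⟨_, hne⟩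
    · exact absurd rfl hne
  nz' g v n hne := by
    simp only [pull] at hne
    split_ifs at hne
    · exact ⟨_, hne⟩
    · exact absurd rfl hne
  df g g' v n hne := by
    simp only [pull] at hne
    split_ifs at hne
    · exact Or.inl ⟨_, hne⟩
    · exact absurd rfl hne
  le1 v := (h v).1
  le2 v := (h v).2

lemma Mv_sx (N : ℕ) : Mv N sx sx rf False := by
  have e1 : rf 0 = -1 := by unfold rf; ring
  have e2 : rf (-1) = 0 := by unfold rf; ring
  have hnz : ∀ g v n, (sx g).a v n ≠ 0 → ∃ n', g.a (rf v) n' ≠ 0 := by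
    intro g v n hne
    simp only [sx] at hne
    by_cases h0 : v = 0
    · subst h0; rw [if_pos rfl] at hne; rw [e1]; exact ⟨_, hne⟩
    · rw [if_neg h0] at hne
      by_cases h1 : v = -1
      · subst h1
        rw [if_pos rfl] at hne
        rw [e2]
        split_ifs at hne
        · exact ⟨_, hne⟩
        · exact absurd rfl hne
      · rw [if_neg h1] at hne
        split_ifs at hne
        · exact ⟨_, hne⟩
        · exact absurd rfl hne
  refine ⟨hnz, hnz, ?_, fun v => by rw [rho_rf]; omega, fun v => by rw [rho_rf]; omega⟩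
  intro g g' v n hne
  left
  simp only [sx] at hne
  by_cases h0 : v = 0
  · subst h0; rw [if_pos rfl, if_pos rfl] at hne; rw [e1]; exact ⟨_, hne⟩
  · rw [if_neg h0, if_neg h0] at hne
    by_cases h1 : v = -1
    · subst h1
      rw [if_pos rfl, if_pos rfl] at hne
      rw [e2]
      split_ifs at hne
      · exact ⟨_, hne⟩
      · exact absurd rfl hne
    · rw [if_neg h1, if_neg h1] at hne
      split_ifs at hne
      · exact ⟨_, hne⟩
      · exact absurd rfl hne

lemma cz_congr {N : ℕ} {Q Q' : Set ℕ} (hQ : ∀ j, j < N → (j ∈ Q ↔ j ∈ Q')) {v : ℤ}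
    (hv : rho v < N) : cz Q v = cz Q' v := by
  unfold rho at hv
  unfold cz
  by_cases h : v < 0
  · rw [if_pos h] at hv
    rw [if_pos h, if_pos h]
    have h3 := hQ _ hv
    by_cases hq : (-1 - v).toNat ∈ Q
    · rw [if_pos hq, if_pos (h3.1 hq)]
    · rw [if_neg hq, if_neg (fun h' => hq (h3.2 h'))]
  · rw [if_neg h] at hv
    rw [if_neg h, if_neg h]
    have h3 := hQ _ hv
    by_cases hq : v.toNat ∈ Q
    · rw [if_pos hq, if_pos (h3.1 hq)]
    · rw [if_neg hq, if_neg (fun h' => hq (h3.2 h'))]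

lemma Mv_z {N : ℕ} {Q Q' : Set ℕ} (hQ : ∀ j, j < N → (j ∈ Q ↔ j ∈ Q')) :
    Mv N (pull rf (cz Q)) (pull rf (cz Q')) rf True where
  nz := (Mv_pull N rf (cz Q) (fun v => by rw [rho_rf]; omega)).nz
  nz' := (Mv_pull N rf (cz Q') (fun v => by rw [rho_rf]; omega)).nz
  df g g' v n hne := by
    by_cases hv : rho v < N
    · left
      simp only [pull, cz_congr hQ hv] at hne
      split_ifs at hne
      · exact ⟨_, hne⟩
      · exact absurd rfl hne
    · right
      refine ⟨trivial, by omega, rho_rf v, ?_⟩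
      have h1 : (pull rf (cz Q) g).a v n ≠ 0 ∨ (pull rf (cz Q') g').a v n ≠ 0 := nz_of_ne hne
      rcases h1 with h1 | h1
      · obtain ⟨n', h2⟩ := (Mv_pull N rf (cz Q) (fun v => by rw [rho_rf]; omega)).nz g v n h1
        exact ⟨n', Or.inl h2⟩
      · obtain ⟨n', h2⟩ := (Mv_pull N rf (cz Q') (fun v => by rw [rho_rf]; omega)).nz g' v n h1
        exact ⟨n', Or.inr h2⟩
  le1 v := by rw [rho_rf]; omega
  le2 v := by rw [rho_rf]; omega

variable {m : ℕ}

/-- Every letter is a move; only the third special letter depends on the set. -/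
lemma Mv_sy {N : ℕ} {Q Q' : Set ℕ} (hQ : ∀ j, j < N → (j ∈ Q ↔ j ∈ Q')) (i : Fin m) :
    ∃ t : ℤ → ℤ, Mv N (sy Q i) (sy Q' i) t (i.val = 2) ∧
      (i.val = 0 → t = m0) ∧ (i.val = 1 → t = m1) ∧ (2 ≤ i.val → t = rf) := by
  by_cases h0 : i.val = 0
  · have e : ∀ Q, (sy Q i : E → E) = pull m0 c0 := fun Q => by
      funext g; simp [sy, h0]
    refine ⟨m0, ?_, fun _ => rfl, fun h => by omega, fun h => by omega⟩
    rw [e, e]
    have := Mv_pull N m0 c0 rho_m0
    rwa [show (False : Prop) = (i.val = 2) by simp; omega] at this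
  · by_cases h1 : i.val = 1
    · have e : ∀ Q, (sy Q i : E → E) = pull m1 c1 := fun Q => by
        funext g; simp [sy, h1]
      refine ⟨m1, ?_, fun h => by omega, fun _ => rfl, fun h => by omega⟩
      rw [e, e]
      have := Mv_pull N m1 c1 rho_m1
      rwa [show (False : Prop) = (i.val = 2) by simp; omega] at this
    · by_cases h2 : i.val = 2
      · have e : ∀ Q, (sy Q i : E → E) = pull rf (cz Q) := fun Q => by
          funext g; simp [sy, h2]
        refine ⟨rf, ?_, fun h => by omega, fun h => by omega, fun _ => rfl⟩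
        rw [e, e]
        have := Mv_z hQ
        rwa [show (True : Prop) = (i.val = 2) by simp; omega] at this
      · have e : ∀ Q, (sy Q i : E → E) = pull rf cp := fun Q => by
          funext g; simp [sy, h0, h1, h2]
        refine ⟨rf, ?_, fun h => by omega, fun h => by omega, fun _ => rfl⟩
        rw [e, e]
        have := Mv_pull N rf cp (fun v => by rw [rho_rf]; omega)
        rwa [show (False : Prop) = (i.val = 2) by simp; omega] at this

/-- Short words are not affected. -/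
lemma ta_congr {N d : ℕ} (hd : d ≤ 1) {Q Q' : Set ℕ} (hQ : ∀ j, j < N → (j ∈ Q ↔ j ∈ Q')) :
    ∀ (l : List (Y m)) (i : ℕ) (g g' : E), RelD N d i g g' → i + l.length ≤ 2 * N + 1 + d →
    ta (S Q m) g l = ta (S Q' m) g' l
  | [], i, g, g', hr, hl => rfl
  | Sum.inl x :: l, i, g, g', hr, hl => by
      simp only [List.length_cons] at hl
      have h1 : g.a (-1) 0 = g'.a (-1) 0 := by
        by_contra hc
        have := hr.1 _ _ hc
        have e : rho (-1) = 0 := by unfold rho; simp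
        omega
      have h2 := ta_congr hd hQ l (i + 1) (sx g) (sx g') ((Mv_sx N).step hd hr) (by omega)
      change Sum.inl (x + g.a (-1) 0) :: ta (S Q m) (sx g) l =
        Sum.inl (x + g'.a (-1) 0) :: ta (S Q' m) (sx g') l
      rw [h1, h2]
  | Sum.inr x :: l, i, g, g', hr, hl => by
      simp only [List.length_cons] at hl
      obtain ⟨t, ht, _⟩ := Mv_sy hQ x
      have h2 := ta_congr hd hQ l (i + 1) (sy Q x g) (sy Q' x g') (ht.step hd hr) (by omega)
      change Sum.inr x :: ta (S Q m) (sy Q x g) l = Sum.inr x :: ta (S Q' m) (sy Q' x g') l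
      rw [h2]

end Pool.Agent.Y29.UT
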