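import Pool.Agent.Y29.UQ.Order

/-!
A family of self-similar data which depends on a set `Q` of natural numbers.  The group consists of
the functions from the integers to the formal power series over the field with two elements.
-/

namespace Pool.Agent.Y29.UT

open Pool.Agent.Y29.UQ

set_option linter.unusedSectionVars false
set_option linter.unusedVariables false

/-- Functions from the integers to power series, written multiplicatively. -/
@[ext] structure E where
  /-- the coefficients -/
  a : ℤ → ℕ → ZMod 2

namespace E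

instance : One E := ⟨⟨fun _ _ => 0⟩⟩
instance : Mul E := ⟨fun g h => ⟨fun v n => g.a v n + h.a v n⟩⟩
instance : Inv E := ⟨fun g => ⟨fun v n => -g.a v n⟩⟩

@[simp] lemma one_a (v : ℤ) (n : ℕ) : (1 : E).a v n = 0 := rfl
@[simp] lemma mul_a (g h : E) (v : ℤ) (n : ℕ) : (g * h).a v n = g.a v n + h.a v n := rfl

lemma ext' {g h : E} (H : ∀ v n, g.a v n = h.a v n) : g = h :=
  E.ext (funext fun v => funext fun n => H v n)

instance : Group E := Group.ofLeftAxioms
  (by intro a b c; exact ext' fun v n => by simp [add_assoc])
  (by intro a; exact ext' fun v n => by simp)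
  (by
    intro a
    refine ext' fun v n => ?_
    change -a.a v n + a.a v n = 0
    exact neg_add_cancel _)

end E

/-- Pull back along the vertex map `t` with costs `w v` of the move which ends at `v`. -/
def pull (t : ℤ → ℤ) (w : ℤ → ℕ) (g : E) : E :=
  ⟨fun v n => if w v ≤ n then g.a (t v) (n - w v) else 0⟩

lemma pull_one (t : ℤ → ℤ) (w : ℤ → ℕ) : pull t w 1 = 1 :=
  E.ext' fun v n => by simp [pull]

lemma pull_mul (t : ℤ → ℤ) (w : ℤ → ℕ) (g h : E) :
    pull t w (g * h) = pull t w g * pull t w h :=
  E.ext' fun v n => by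
    simp only [pull, E.mul_a]
    split_ifs <;> simp

lemma pull_pull (t t' : ℤ → ℤ) (w w' : ℤ → ℕ) (g : E) :
    pull t w (pull t' w' g) = pull (fun v => t' (t v)) (fun v => w v + w' (t v)) g :=
  E.ext' fun v n => by
    simp only [pull]
    by_cases h : w v + w' (t v) ≤ n
    · rw [if_pos (by omega), if_pos (by omega), if_pos h, Nat.sub_sub]
    · rw [if_neg h]
      split_ifs
      · omega
      · rfl
      · rfl

/-- The shift. -/
def ph (g : E) : E := pull (fun v => v) (fun _ => 1) g

/-- The reflection of the vertices. -/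
def rf (v : ℤ) : ℤ := -1 - v

/-- The first matching. -/
def m0 (v : ℤ) : ℤ := if v % 2 = 0 then v + 1 else v - 1
/-- The second matching. -/
def m1 (v : ℤ) : ℤ := if v % 2 = 0 then v - 1 else v + 1

/-- The cost of arriving at `v` by the first matching. -/
def c0 (v : ℤ) : ℕ := if v % 2 = 0 then 1 else 0
/-- The cost of arriving at `v` by the second matching. -/
def c1 (v : ℤ) : ℕ := if v % 2 = 0 then 0 else 1

open Classical in
/-- The cost of arriving at `v` by the reflection which depends on the set `Q`. -/
noncomputable def cz (Q : Set ℕ) (v : ℤ) : ℕ :=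
  if v < 0 then (if (-1 - v).toNat ∈ Q then 0 else 1) else (if v.toNat ∈ Q then 1 else 0)

/-- The cost of arriving at `v` by the plain reflection. -/
def cp (v : ℤ) : ℕ := if v < 0 then 1 else 0

lemma m0_m0 (v : ℤ) : m0 (m0 v) = v := by unfold m0; split_ifs <;> omega
lemma m1_m1 (v : ℤ) : m1 (m1 v) = v := by unfold m1; split_ifs <;> omega
lemma rf_rf (v : ℤ) : rf (rf v) = v := by unfold rf; omega
lemma c0_add (v : ℤ) : c0 v + c0 (m0 v) = 1 := by unfold c0 m0; split_ifs <;> omega
lemma c1_add (v : ℤ) : c1 v + c1 (m1 v) = 1 := by unfold c1 m1; split_ifs <;> omega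
lemma cp_add (v : ℤ) : cp v + cp (rf v) = 1 := by unfold cp rf; split_ifs <;> omega
lemma cz_add (Q : Set ℕ) (v : ℤ) : cz Q v + cz Q (rf v) = 1 := by
  unfold cz rf
  have e : -1 - (-1 - v) = v := by ring
  by_cases h : v < 0
  · have h2 : ¬ (-1 - v < 0) := by omega
    rw [if_pos h, if_neg h2]
    split_ifs <;> rfl
  · have h2 : -1 - v < 0 := by omega
    rw [if_neg h, if_pos h2, e]
    split_ifs <;> rfl

/-- Section at the letters of the second kind. -/
noncomputable def sy {m : ℕ} (Q : Set ℕ) (i : Fin m) (g : E) : E :=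
  if i.val = 0 then pull m0 c0 g
  else if i.val = 1 then pull m1 c1 g
  else if i.val = 2 then pull rf (cz Q) g
  else pull rf cp g

/-- Section at the letters of the first kind. -/
def sx (g : E) : E :=
  ⟨fun v n => if v = 0 then g.a (-1) (n + 1)
    else if v = -1 then (if 2 ≤ n then g.a 0 (n - 2) else 0)
    else (if cp v ≤ n then g.a (rf v) (n - cp v) else 0)⟩

/-- Transversal. -/
def gx (x : ZMod 2) : E := ⟨fun v n => if v = -1 ∧ n = 0 then x else 0⟩

lemma ph_one : ph 1 = 1 := pull_one _ _
lemma ph_mul (g h : E) : ph (g * h) = ph g * ph h := pull_mul _ _ _ _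
lemma sy_one {m : ℕ} (Q : Set ℕ) (i : Fin m) : sy Q i 1 = 1 := by
  unfold sy; split_ifs <;> exact pull_one _ _
lemma sy_mul {m : ℕ} (Q : Set ℕ) (i : Fin m) (g h : E) :
    sy Q i (g * h) = sy Q i g * sy Q i h := by
  unfold sy; split_ifs <;> exact pull_mul _ _ _ _

lemma sx_one : sx 1 = 1 := E.ext' fun v n => by simp [sx]
lemma sx_mul (g h : E) : sx (g * h) = sx g * sx h := E.ext' fun v n => by
  simp only [sx, E.mul_a]
  split_ifs <;> simp

lemma gx_zero : gx 0 = 1 := E.ext' fun v n => by simp [gx]

lemma sx_gx (x : ZMod 2) : sx (gx x) = 1 := E.ext' fun v n => by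
  simp only [sx, gx, E.one_a]
  by_cases h0 : v = 0
  · subst h0; simp
  · by_cases h1 : v = -1
    · subst h1; simp
    · have h2 : rf v ≠ -1 := by unfold rf; omega
      simp [h0, h1, h2]

lemma pull_congr {t t' : ℤ → ℤ} {w w' : ℤ → ℕ} (h : ∀ v, t v = t' v) (h' : ∀ v, w v = w' v)
    (g : E) : pull t w g = pull t' w' g := by
  rw [show t = t' from funext h, show w = w' from funext h']

lemma sy_sy {m : ℕ} (Q : Set ℕ) (i : Fin m) (g : E) : sy Q i (sy Q i g) = ph g := by
  unfold sy ph
  split_ifs
  · rw [pull_pull]; exact pull_congr m0_m0 c0_add g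
  · rw [pull_pull]; exact pull_congr m1_m1 c1_add g
  · rw [pull_pull]; exact pull_congr rf_rf (cz_add Q) g
  · rw [pull_pull]; exact pull_congr rf_rf cp_add g

lemma sy_ph {m : ℕ} (Q : Set ℕ) (i : Fin m) (g : E) : sy Q i (ph g) = ph (sy Q i g) := by
  unfold sy ph
  split_ifs <;> rw [pull_pull, pull_pull] <;>
    exact pull_congr (fun v => rfl) (fun v => add_comm _ _) g

lemma sx_sx (g : E) (h : g.a (-1) 0 = 0) : sx (sx g) = ph g := E.ext' fun v n => by
  simp only [sx, ph, pull]
  by_cases h0 : v = 0
  · subst h0
    by_cases h1 : 1 ≤ n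
    · simp [h1]
    · have : n = 0 := by omega
      subst this
      simp
  · by_cases h1 : v = -1
    · subst h1
      rcases lt_trichotomy n 1 with h2 | h2 | h2
      · have : n = 0 := by omega
        subst this; simp
      · subst h2; simp [h]
      · have h3 : 2 ≤ n := by omega
        have h4 : 1 ≤ n := by omega
        simp [h3, h4]
        congr 1; omega
    · have h2 : rf v ≠ -1 := by unfold rf; omega
      have h3 : rf v ≠ 0 := by unfold rf; omega
      have h4 := cp_add v
      rw [if_neg h0, if_neg h1, if_neg h3, if_neg h2, rf_rf]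
      by_cases h5 : 1 ≤ n
      · rw [if_pos (by omega), if_pos (by omega), if_pos h5]
        congr 1; omega
      · rw [if_neg h5]
        split_ifs
        · omega
        · rfl
        · rfl

lemma sx_ph (g : E) (h : g.a (-1) 0 = 0) : sx (ph g) = ph (sx g) := E.ext' fun v n => by
  simp only [sx, ph, pull]
  by_cases h0 : v = 0
  · subst h0
    by_cases h1 : 1 ≤ n
    · have h2 : 1 ≤ n + 1 := by omega
      simp [h1]
    · have : n = 0 := by omega
      subst this
      simp [h]
  · by_cases h1 : v = -1
    · subst h1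
      simp only [h0, if_false, if_true]
      by_cases h3 : 3 ≤ n
      · rw [if_pos (by omega), if_pos (by omega), if_pos (by omega), if_pos (by omega)]
        congr 1
      · by_cases h2 : 2 ≤ n
        · rw [if_pos h2, if_neg (by omega), if_pos (by omega), if_neg (by omega)]
        · rw [if_neg h2]
          split_ifs
          · omega
          · rfl
          · rfl
    · rw [if_neg h0, if_neg h1, if_neg h0, if_neg h1]
      by_cases h5 : cp v + 1 ≤ n
      · rw [if_pos (by omega), if_pos (by omega), if_pos (by omega), if_pos (by omega)]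
        congr 1; omega
      · split_ifs <;> first | rfl | omega

/-- All letters. -/
abbrev Y (m : ℕ) := ZMod 2 ⊕ Fin m

/-- The self-similar data. -/
noncomputable def S (Q : Set ℕ) (m : ℕ) : SS E (Y m) where
  sm g := Sum.map (fun x => x + g.a (-1) 0) id
  sec g := Sum.elim (fun _ => sx g) (fun i => sy Q i g)
  phi := ph
  bp := Sum.elim (fun _ => Sum.inl 0) Sum.inr
  gx := Sum.elim gx (fun _ => 1)
  sm_one x := by rcases x with x | x <;> simp
  sm_mul g h x := by
    rcases x with x | x
    · simp; ring
    · simp
  sec_one x := by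
    rcases x with x | x
    · exact sx_one
    · exact sy_one Q x
  sec_mul g h x := by
    rcases x with x | x
    · exact sx_mul g h
    · exact sy_mul Q x g h
  phi_one := ph_one
  phi_mul := ph_mul
  sm_gx x := by
    rcases x with x | x
    · simp [gx]
    · rfl
  sec_gx x := by
    rcases x with x | x
    · exact sx_gx x
    · exact sy_one Q x
  gx_bp x := by
    rcases x with x | x
    · exact gx_zero
    · rfl
  bp_sm g x := by rcases x with x | x <;> rfl
  sm_sec g x := by
    rcases x with x | x
    · simp [sx]
    · rfl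
  sec_sec g x h := by
    rcases x with x | x
    · have h1 : (0 : ZMod 2) + g.a (-1) 0 = 0 := Sum.inl_injective h
      exact sx_sx g (by simpa using h1)
    · exact sy_sy Q x g
  sm_phi g x h := by
    rcases x with x | x
    · refine congrArg Sum.inl ?_
      simp [ph, pull]
    · rfl
  sec_phi g x h := by
    rcases x with x | x
    · have h1 : (0 : ZMod 2) + g.a (-1) 0 = 0 := Sum.inl_injective h
      exact sx_ph g (by simpa using h1)
    · exact sy_ph Q x g

end Pool.Agent.Y29.UT
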