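import Pool.Agent.Y29.UT.Cmp

namespace Pool.Agent.Y29.UT

open Pool.Agent.Y29.UQ

set_option linter.unusedSectionVars false
set_option linter.unusedVariables false

variable {m : ℕ}

/-- The letter which moves the vertex `v` to `v + 1`. -/
def ltr (v : ℤ) : Y (m + 3) := if v % 2 = 0 then Sum.inr 0 else Sum.inr 1

/-- The word of the letters which move `v` to `v + j`. -/
def run : ℕ → ℤ → List (Y (m + 3))
  | 0, _ => []
  | j + 1, v => ltr v :: run j (v + 1)

lemma length_run (j : ℕ) : ∀ v, (run j v : List (Y (m + 3))).length = j := by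
  induction j with
  | zero => intro v; rfl
  | succ j ih => intro v; simp [run, ih]

/-- A letter is the right one or a wrong one. -/
lemma letter {N : ℕ} {Q Q' : Set ℕ} (hQ : ∀ j, j < N → (j ∈ Q ↔ j ∈ Q')) (y : Y (m + 3))
    (p : ℤ) : ∃ (t : ℤ → ℤ) (z : Prop),
      Mv N (fun g => (S Q (m + 3)).sec g y) (fun g => (S Q' (m + 3)).sec g y) t z ∧
      ((y = ltr p ∧ ∀ v, t v = p → v = p + 1) ∨
        (y ≠ ltr p ∧ ∀ v, t v = p → v = p - 1 ∨ v = rf p)) := by
  rcases y with x | i
  · refine ⟨rf, False, Mv_sx N, Or.inr ⟨?_, ?_⟩⟩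
    · unfold ltr; split_ifs <;> simp
    · intro v hv
      right
      rw [← hv, rf_rf]
  · obtain ⟨t, ht, h0, h1, h2⟩ := Mv_sy hQ i
    refine ⟨t, _, ht, ?_⟩
    by_cases hp : p % 2 = 0
    · by_cases hi : i.val = 0
      · left
        refine ⟨?_, ?_⟩
        · unfold ltr; rw [if_pos hp]
          exact congrArg Sum.inr (Fin.ext hi)
        · intro v hv
          rw [h0 hi] at hv
          rw [← m0_m0 v, hv]; unfold m0; rw [if_pos hp]
      · right
        refine ⟨?_, ?_⟩
        · unfold ltr; rw [if_pos hp]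
          intro h
          exact hi (congrArg Fin.val (Sum.inr_injective h))
        · intro v hv
          by_cases hi1 : i.val = 1
          · left
            rw [h1 hi1] at hv
            rw [← m1_m1 v, hv]; unfold m1; rw [if_pos hp]
          · right
            rw [h2 (by omega)] at hv
            rw [← hv, rf_rf]
    · by_cases hi : i.val = 1
      · left
        refine ⟨?_, ?_⟩
        · unfold ltr; rw [if_neg hp]
          exact congrArg Sum.inr (Fin.ext hi)
        · intro v hv
          rw [h1 hi] at hv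
          rw [← m1_m1 v, hv]; unfold m1; rw [if_neg hp]
      · right
        refine ⟨?_, ?_⟩
        · unfold ltr; rw [if_neg hp]
          intro h
          exact hi (congrArg Fin.val (Sum.inr_injective h))
        · intro v hv
          by_cases hi1 : i.val = 0
          · left
            rw [h0 hi1] at hv
            rw [← m0_m0 v, hv]; unfold m0; rw [if_neg hp]
          · right
            rw [h2 (by omega)] at hv
            rw [← hv, rf_rf]

lemma ta_cons (Q : Set ℕ) (g : E) (y : Y m) (l : List (Y m)) :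
    ta (S Q m) g (y :: l) = (S Q m).sm g y :: ta (S Q m) ((S Q m).sec g y) l := rfl

lemma sm_congr {Q Q' : Set ℕ} {g g' : E} (h : g.a (-1) 0 = g'.a (-1) 0) (y : Y m) :
    (S Q m).sm g y = (S Q' m).sm g' y := by
  rcases y with x | i
  · change Sum.inl (x + g.a (-1) 0) = Sum.inl (x + g'.a (-1) 0)
    rw [h]
  · rfl

lemma RelD.eq0 {N d i : ℕ} {g g' : E} (h : RelD N d i g g') (hi : i ≤ 2 * N) :
    g.a (-1) 0 = g'.a (-1) 0 := by
  by_contra hc
  have := h.1 _ _ hc
  have e : rho (-1) = 0 := by unfold rho; simp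
  omega

/-- Second phase. -/
lemma phase2 {N : ℕ} {Q Q' : Set ℕ} (hQ : ∀ j, j < N → (j ∈ Q ↔ j ∈ Q')) :
    ∀ (j : ℕ), j ≤ N → ∀ (l : List (Y (m + 3))) (g g' : E), Inv2 N j g g' → l.length = j + 1 →
      ta (S Q (m + 3)) g l = ta (S Q' (m + 3)) g' l ∨
      ∃ β, l = run j (-1 - (j : ℤ)) ++ [Sum.inl β] := by
  intro j
  induction j with
  | zero =>
    intro _ l g g' hI hl
    obtain ⟨y, rfl⟩ := List.length_eq_one_iff.1 hl
    rcases y with x | i
    · exact Or.inr ⟨x, rfl⟩
    · exact Or.inl rfl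
  | succ j ih =>
    intro hj l g g' hI hl
    cases l with
    | nil => simp at hl
    | cons y l =>
      simp only [List.length_cons] at hl
      have hl' : l.length = j + 1 := by omega
      have e0 := hI.1.eq0 (by omega)
      obtain ⟨t, z, hm, hcase⟩ := letter hQ y (-1 - ((j + 1 : ℕ) : ℤ))
      rcases hcase with ⟨hy, ht⟩ | ⟨hy, ht⟩
      · have h1 := hm.good2 hj hI (fun v hv _ => by rw [ht v hv]; push_cast; ring)
        rcases ih (by omega) l _ _ h1 hl' with h2 | ⟨β, h2⟩
        · left
          rw [ta_cons, ta_cons, sm_congr e0, h2]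
        · right
          refine ⟨β, ?_⟩
          rw [h2, hy, run]
          have e : -1 - ((j + 1 : ℕ) : ℤ) + 1 = -1 - (j : ℤ) := by push_cast; ring
          rw [e]; rfl
      · left
        have h1 := hm.bad2 hj hI (fun v hv => by
          rcases ht v hv with h | h
          · rw [h]; unfold rho; push_cast; split_ifs <;> omega
          · rw [h, rho_rf]; unfold rho; push_cast; split_ifs <;> omega)
        rw [ta_cons, ta_cons, sm_congr e0]
        have h2 := ta_congr (le_refl 1) hQ l _ _ _ h1 (by omega)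
        rw [h2]

/-- The full pattern. -/
def pat (N : ℕ) : List (Y (m + 3)) := Sum.inr 2 :: run N (-1 - (N : ℤ))

/-- First phase. -/
lemma phase1 {N : ℕ} {Q Q' : Set ℕ} (hQ : ∀ j, j < N → (j ∈ Q ↔ j ∈ Q')) :
    ∀ (j i : ℕ), i + j = N → ∀ (l : List (Y (m + 3))) (g g' : E), Inv1 N i g g' →
      l.length = N + 2 + j →
      ta (S Q (m + 3)) g l = ta (S Q' (m + 3)) g' l ∨
      ∃ β, l = run j (i : ℤ) ++ (pat N ++ [Sum.inl β]) := by
  intro j
  induction j with
  | zero =>
    intro i hi l g g' hI hl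
    have hiN : i = N := by omega
    subst hiN
    cases l with
    | nil => simp at hl
    | cons y l =>
      simp only [List.length_cons] at hl
      have e0 := hI.1.eq0 (by omega)
      by_cases hy : y = Sum.inr 2
      · subst hy
        have h1 : Inv2 i i ((S Q (m + 3)).sec g (Sum.inr 2)) ((S Q' (m + 3)).sec g' (Sum.inr 2)) :=
          (Mv_z hQ).mid hI
        rcases phase2 hQ i le_rfl l _ _ h1 (by omega) with h2 | ⟨β, h2⟩
        · left
          rw [ta_cons, ta_cons, sm_congr e0, h2]
        · right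
          exact ⟨β, by rw [h2]; rfl⟩
      · left
        have h1 : RelD i 1 (i + 1) ((S Q (m + 3)).sec g y) ((S Q' (m + 3)).sec g' y) := by
          rcases y with x | k
          · exact (Mv_sx i).midbad hI
          · obtain ⟨t, ht, _⟩ := Mv_sy hQ k
            have hk : ¬ k.val = 2 := fun h => hy (congrArg Sum.inr (Fin.ext h))
            rw [show (k.val = 2) = False by simp [hk]] at ht
            exact ht.midbad hI
        rw [ta_cons, ta_cons, sm_congr e0]
        have h2 := ta_congr (le_refl 1) hQ l _ _ _ h1 (by omega)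
        rw [h2]
  | succ j ih =>
    intro i hi l g g' hI hl
    cases l with
    | nil => simp at hl
    | cons y l =>
      simp only [List.length_cons] at hl
      have e0 := hI.1.eq0 (by omega)
      obtain ⟨t, z, hm, hcase⟩ := letter hQ y (i : ℤ)
      rcases hcase with ⟨hy, ht⟩ | ⟨hy, ht⟩
      · have h1 := hm.good1 (by omega) hI (fun v hv _ => by rw [ht v hv]; push_cast; ring)
        rcases ih (i + 1) (by omega) l _ _ h1 (by omega) with h2 | ⟨β, h2⟩
        · left
          rw [ta_cons, ta_cons, sm_congr e0, h2]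
        · right
          refine ⟨β, ?_⟩
          rw [h2, hy, run]
          have e : ((i + 1 : ℕ) : ℤ) = (i : ℤ) + 1 := by push_cast; ring
          rw [e]; rfl
      · left
        have h1 := hm.bad1 (by omega) hI (fun v hv => by
          rcases ht v hv with h | h
          · rw [h]; unfold rho; split_ifs <;> omega
          · rw [h, rho_rf]; unfold rho; split_ifs <;> omega)
        rw [ta_cons, ta_cons, sm_congr e0]
        have h2 := ta_congr (le_refl 1) hQ l _ _ _ h1 (by omega)
        rw [h2]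

/-- A basis element. -/
def bas (v : ℤ) (n : ℕ) : E := ⟨fun v' n' => if v' = v ∧ n' = n then 1 else 0⟩

/-- The contribution of a letter of the first kind. -/
def cb (b : ZMod 2) : E := ⟨fun v n => if v = 0 ∧ n = 0 then b else 0⟩

lemma cb_one : cb 1 = bas 0 0 := rfl

lemma cb_rel (N : ℕ) (b : ZMod 2) : Inv1 N 0 (cb b) (cb b) := by
  refine ⟨⟨fun v n h => absurd rfl h, fun _ v n h => ?_⟩, fun v n h _ => ?_⟩
  · by_cases hv : v = 0
    · subst hv; unfold rho; simp
    · simp [cb, hv] at h
  · by_cases hv : v = 0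
    · subst hv; rfl
    · simp [cb, hv] at h

lemma pull_bas (t : ℤ → ℤ) (w : ℤ → ℕ) (ht : ∀ v, t (t v) = v) (v : ℤ) (n : ℕ) :
    pull t w (bas v n) = bas (t v) (n + w (t v)) := E.ext' fun v' n' => by
  simp only [pull, bas]
  by_cases hv : v' = t v
  · subst hv
    rw [ht]
    by_cases h : n' = n + w (t v)
    · subst h; simp
    · rw [if_neg (show ¬ (t v = t v ∧ n' = n + w (t v)) from fun h' => h h'.2)]
      split_ifs
      · omega
      · rfl
      · rfl
  · have h1 : t v' ≠ v := fun h => hv (by rw [← h, ht])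
    simp [h1, hv]

lemma sec_ltr (Q : Set ℕ) (v : ℤ) (n : ℕ) :
    (S Q (m + 3)).sec (bas v n) (ltr v) = bas (v + 1) n := by
  by_cases hv : v % 2 = 0
  · have e : (ltr v : Y (m + 3)) = Sum.inr 0 := by unfold ltr; rw [if_pos hv]
    rw [e]
    change pull m0 c0 (bas v n) = _
    rw [pull_bas _ _ m0_m0]
    have h1 : m0 v = v + 1 := by unfold m0; rw [if_pos hv]
    have h2 : c0 (v + 1) = 0 := by unfold c0; rw [if_neg (by omega)]
    rw [h1, h2, add_zero]
  · have e : (ltr v : Y (m + 3)) = Sum.inr 1 := by unfold ltr; rw [if_neg hv]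
    rw [e]
    change pull m1 c1 (bas v n) = _
    rw [pull_bas _ _ m1_m1]
    have h1 : m1 v = v + 1 := by unfold m1; rw [if_neg hv]
    have h2 : c1 (v + 1) = 0 := by unfold c1; rw [if_pos (by omega)]
    rw [h1, h2, add_zero]

lemma sm_ltr (Q : Set ℕ) (g : E) (v : ℤ) : (S Q (m + 3)).sm g (ltr v) = ltr v := by
  unfold ltr; split_ifs <;> rfl

lemma ta_run (Q : Set ℕ) (n : ℕ) (l : List (Y (m + 3))) (j : ℕ) : ∀ v : ℤ,
    ta (S Q (m + 3)) (bas v n) (run j v ++ l) =
      run j v ++ ta (S Q (m + 3)) (bas (v + j) n) l := by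
  induction j with
  | zero => intro v; simp [run]
  | succ j ih =>
    intro v
    rw [run, List.cons_append, ta_cons, sm_ltr, sec_ltr, ih (v + 1), List.cons_append]
    have e : v + 1 + (j : ℤ) = v + ((j + 1 : ℕ) : ℤ) := by push_cast; ring
    rw [e]

open Classical in
lemma ta_pat (Q : Set ℕ) (N : ℕ) (β : ZMod 2) :
    ta (S Q (m + 3)) (cb 1) (run N 0 ++ (pat N ++ [Sum.inl β])) =
      run N 0 ++ (pat N ++ [Sum.inl (β + if N ∈ Q then 1 else 0)]) := by
  rw [cb_one, ta_run]
  congr 1
  have h1 : (S Q (m + 3)).sec (bas (0 + (N : ℤ)) 0) (Sum.inr 2) =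
      bas (-1 - (N : ℤ)) (if N ∈ Q then 0 else 1) := by
    change pull rf (cz Q) (bas (0 + (N : ℤ)) 0) = _
    rw [pull_bas _ _ rf_rf]
    have e1 : rf (0 + (N : ℤ)) = -1 - (N : ℤ) := by unfold rf; ring
    have e2 : cz Q (-1 - (N : ℤ)) = if N ∈ Q then 0 else 1 := by
      unfold cz
      rw [if_pos (by omega)]
      have e3 : (-1 - (-1 - (N : ℤ))).toNat = N := by
        have : -1 - (-1 - (N : ℤ)) = (N : ℤ) := by ring
        rw [this]; simp
      rw [e3]
    rw [e1, e2, zero_add]
  have h2 : ∀ n, ta (S Q (m + 3)) (bas (-1 - (N : ℤ) + (N : ℤ)) n) [Sum.inl β] =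
      [Sum.inl (β + if n = 0 then 1 else 0)] := by
    intro n
    change [Sum.inl (β + (bas (-1 - (N : ℤ) + (N : ℤ)) n).a (-1) 0)] = _
    have e : -1 - (N : ℤ) + (N : ℤ) = -1 := by ring
    rw [e]
    simp only [bas, true_and, eq_comm]
  change Sum.inr 2 :: ta (S Q (m + 3)) ((S Q (m + 3)).sec (bas (0 + (N : ℤ)) 0) (Sum.inr 2))
    (run N (-1 - (N : ℤ)) ++ [Sum.inl β]) = _
  rw [h1, ta_run, h2]
  unfold pat
  rw [List.cons_append]
  by_cases hq : N ∈ Q <;> simp [hq]

end Pool.Agent.Y29.UT
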